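import Pool.Agent.Work.MP_1060d1_pr.SUB.AffMain

/-!
Monotone affine nearest neighbour systems on `ℤ` have arbitrarily small exponentially ergodic
perturbations: adding `ε` to the birth rates if births react more strongly to their neighbours than
deaths (`a_L + a_R ≥ b_L + b_R`), and adding `ε` to the death rates in the opposite case. In the
mixed cases (`a_L > b_L`, `a_R < b_R` and the mirror image) the drift is neither submodular nor
supermodular.
-/

open MP1060

namespace Pool.Agent.Results.MP_1060d1_pr.AffineNN

theorem result (c : Rates 1 1) (a0 aL aR b0 bL bR : ℝ) (hc : c.Affine a0 aL aR b0 bL bR)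
    (hm : c.Monotone) (ε : ℝ) (hε : 0 ≤ ε) :
    (bL + bR ≤ aL + aR → (c.addBirth ε hε).Monotone ∧
      ExpErgodicRate (c.addBirth ε hε) (a0 + ε)) ∧
    (aL + aR ≤ bL + bR → (c.addDeath ε hε).Monotone ∧
      ExpErgodicRate (c.addDeath ε hε) (b0 + ε)) := by
  have h := affine_main c a0 aL aR b0 bL bR hc hm ε hε
  rw [hc.c1_zero, hc.c0_one] at h
  exact h

end Pool.Agent.Results.MP_1060d1_pr.AffineNN
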