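import Pool.Agent.Work.MP_1060d1_pr.SUB.Main

/-!
Monotone interacting particle systems whose drift is submodular or supermodular have arbitrarily
small exponentially ergodic perturbations (and are exponentially ergodic themselves as soon as
`c₁(𝟎) > 0`, respectively `c₀(𝟏) > 0`).
-/

open MP1060

namespace Pool.Agent.Results.MP_1060d1_pr.SubmodularDrift

theorem result {d R : ℕ} (c : Rates d R) (hm : c.Monotone) (ε : ℝ) (hε : 0 ≤ ε) :
    (c.Submodular → (c.addBirth ε hε).Monotone ∧
      ExpErgodicRate (c.addBirth ε hε) (c.c1 (fun _ => false) + ε)) ∧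
    (c.Supermodular → (c.addDeath ε hε).Monotone ∧
      ExpErgodicRate (c.addDeath ε hε) (c.c0 (fun _ => true) + ε)) := by
  constructor
  · intro hs
    exact ⟨addBirth_monotone c ε hε hm, expErgodic_submodular (c.addBirth ε hε)
      (addBirth_monotone c ε hε hm) (addBirth_submodular c ε hε hs)⟩
  · intro hs
    exact ⟨addDeath_monotone c ε hε hm, expErgodic_supermodular (c.addDeath ε hε)
      (addDeath_monotone c ε hε hm) (addDeath_supermodular c ε hε hs)⟩

end Pool.Agent.Results.MP_1060d1_pr.SubmodularDrift
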