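import Pool.Agent.Work.MP_1060d1_pr.SUB.Main

/-!
Monotone interacting particle systems whose total drift is nonincreasing have arbitrarily small
exponentially ergodic perturbations.
-/

open MP1060

namespace Pool.Agent.Results.MP_1060d1_pr.TotalDrift

theorem result {d R : ℕ} (c : Rates d R) (hm : c.Monotone) (e : ℝ) (hT : c.TotalDrift e)
    (ε : ℝ) (hε : 0 ≤ ε) :
    ((c.addBirth ε hε).Monotone ∧ ExpErgodicRate (c.addBirth ε hε) (e + ε)) ∧
    ((c.addDeath ε hε).Monotone ∧ ExpErgodicRate (c.addDeath ε hε) (e + ε)) := by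
  constructor
  · exact ⟨addBirth_monotone c ε hε hm, expErgodic_total (c.addBirth ε hε)
      (addBirth_monotone c ε hε hm) (e + ε) (addBirth_total c ε e hε hT)⟩
  · exact ⟨addDeath_monotone c ε hε hm, expErgodic_total (c.addDeath ε hε)
      (addDeath_monotone c ε hε hm) (e + ε) (addDeath_total c ε e hε hT)⟩

end Pool.Agent.Results.MP_1060d1_pr.TotalDrift
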